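import Mathlib

/-!
# A linear bound for zero-sum problems in abelian groups of exponent `m`
-/

set_option autoImplicit false

namespace Pool.Agent.Helper82.ACC

open Finset

theorem zeroSum_card_univ {G ι : Type*} [AddCommGroup G] [Fintype G] [DecidableEq G]
    [DecidableEq ι] [Fintype ι]
    (m : ℕ) (hm : 1 ≤ m) (hG : ∀ g : G, m • g = 0) (g : ι → G)
    (hU : ∀ T : Finset ι, T.Nonempty → ∑ i ∈ T, g i ≠ 0) :
    m ^ Fintype.card ι ≤ Fintype.card G * (m - 1) ^ Fintype.card ι := by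
  classical
  have : NeZero m := ⟨by omega⟩
  -- the `m`-th roots of unity in ℂ
  let μ : Finset ℂ := Polynomial.nthRootsFinset m (1 : ℂ)
  have hμc : μ.card = m := (Complex.isPrimitiveRoot_exp m (by omega)).card_nthRootsFinset
  have hμ : ∀ z : ℂ, z ∈ μ ↔ z ^ m = 1 := fun z => Polynomial.mem_nthRootsFinset (by omega) 1
  have hψ : ∀ (ψ : AddChar G ℂ) (x : G), (ψ x)⁻¹ ∈ μ := by
    intro ψ x
    rw [hμ, inv_pow, ← AddChar.map_nsmul_eq_pow, hG, AddChar.map_zero_eq_one, inv_one]
  have hψ0 : ∀ (ψ : AddChar G ℂ) (x : G), ψ x ≠ 0 := by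
    intro ψ x h
    have h1 := hψ ψ x
    rw [hμ, h, inv_zero, zero_pow (by omega)] at h1
    exact zero_ne_one h1
  let S : Finset (ι → ℂ) := Fintype.piFinset fun _ => μ
  let B : AddChar G ℂ → Finset (ι → ℂ) := fun ψ => Fintype.piFinset fun i => μ.erase (ψ (g i))⁻¹
  have hcover : S ⊆ (univ : Finset (AddChar G ℂ)).biUnion B := by
    intro c hc
    have hsum : ∑ ψ : AddChar G ℂ, ∏ i, (1 + -(c i * ψ (g i))) = (Fintype.card G : ℂ) := by
      have h1 : ∀ ψ : AddChar G ℂ, ∏ i, (1 + -(c i * ψ (g i))) =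
          ∑ T : Finset ι, (∏ i ∈ T, (-(c i))) * ψ (∑ i ∈ T, g i) := by
        intro ψ
        rw [Finset.prod_one_add, Finset.powerset_univ]
        refine Finset.sum_congr rfl fun T hT => ?_
        clear hT
        have hs : ψ (∑ i ∈ T, g i) = ∏ i ∈ T, ψ (g i) := by
          induction T using Finset.induction_on with
          | empty => simp
          | insert i T hi ih =>
            rw [Finset.sum_insert hi, Finset.prod_insert hi, AddChar.map_add_eq_mul, ih]
        rw [hs, ← Finset.prod_mul_distrib]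
        refine Finset.prod_congr rfl fun i _ => by ring
      rw [Finset.sum_congr rfl fun ψ _ => h1 ψ, Finset.sum_comm]
      rw [Finset.sum_eq_single (∅ : Finset ι)]
      · simp [AddChar.card_eq]
      · intro T _ hT
        rw [← Finset.mul_sum, AddChar.sum_apply_eq_ite,
          if_neg (hU T (Finset.nonempty_iff_ne_empty.mpr hT)), mul_zero]
      · intro h
        exact absurd (Finset.mem_univ _) h
    have hne : ∃ ψ : AddChar G ℂ, ∏ i, (1 + -(c i * ψ (g i))) ≠ 0 := by
      by_contra hcon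
      push Not at hcon
      rw [Finset.sum_eq_zero fun ψ _ => hcon ψ] at hsum
      exact (Nat.cast_ne_zero.mpr (Fintype.card_ne_zero (α := G))) hsum.symm
    obtain ⟨ψ, hψn⟩ := hne
    rw [Finset.mem_biUnion]
    refine ⟨ψ, Finset.mem_univ _, ?_⟩
    rw [Fintype.mem_piFinset]
    intro i
    rw [Finset.mem_erase]
    refine ⟨?_, Fintype.mem_piFinset.mp hc i⟩
    intro hci
    rw [Finset.prod_ne_zero_iff] at hψn
    apply hψn i (Finset.mem_univ _)
    rw [hci, inv_mul_cancel₀ (hψ0 ψ _), add_neg_cancel]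
  have h1 : S.card = m ^ Fintype.card ι := by
    simp only [S]
    rw [Fintype.card_piFinset, Finset.prod_const, hμc, Finset.card_univ]
  have h2 : ∀ ψ, (B ψ).card = (m - 1) ^ Fintype.card ι := by
    intro ψ
    rw [Fintype.card_piFinset, Finset.prod_congr rfl fun i _ => Finset.card_erase_of_mem (hψ ψ _),
      hμc, Finset.prod_const, Finset.card_univ]
  calc m ^ Fintype.card ι = S.card := h1.symm
    _ ≤ ((univ : Finset (AddChar G ℂ)).biUnion B).card := Finset.card_le_card hcover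
    _ ≤ ∑ ψ : AddChar G ℂ, (B ψ).card := Finset.card_biUnion_le
    _ = Fintype.card G * (m - 1) ^ Fintype.card ι := by
      rw [Finset.sum_congr rfl fun ψ _ => h2 ψ, Finset.sum_const, smul_eq_mul, Finset.card_univ,
        AddChar.card_eq]

/-- If a family `(g i)`, `i ∈ U`, of elements of a finite abelian group `G` with `m • G = 0` has no
nonempty zero-sum subfamily, then `m ^ |U| ≤ |G| * (m - 1) ^ |U|`. -/
theorem zeroSum_card {G ι : Type*} [AddCommGroup G] [Fintype G] [DecidableEq G] [DecidableEq ι]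
    (m : ℕ) (hm : 1 ≤ m) (hG : ∀ g : G, m • g = 0) (U : Finset ι) (g : ι → G)
    (hU : ∀ T ⊆ U, T.Nonempty → ∑ i ∈ T, g i ≠ 0) :
    m ^ U.card ≤ Fintype.card G * (m - 1) ^ U.card := by
  classical
  have h := zeroSum_card_univ m hm hG (fun i : U => g i) (by
    intro T hT
    have h1 := hU (T.map (Function.Embedding.subtype _)) (by
      intro x hx
      rw [Finset.mem_map] at hx
      obtain ⟨y, -, rfl⟩ := hx
      exact y.2) (hT.map)
    rwa [Finset.sum_map] at h1)
  rwa [Fintype.card_coe] at h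

/-- A family of more than `m ^ 2 * h` elements of `(ℤ/m)^h` has a nonempty zero-sum subfamily. -/
theorem exists_zeroSum {ι κ : Type*} [DecidableEq ι] [Fintype κ] [DecidableEq κ]
    (m : ℕ) (hm : 2 ≤ m) (U : Finset ι) (g : ι → κ → ZMod m)
    (hU : m ^ 2 * Fintype.card κ + 1 ≤ U.card) :
    ∃ T ⊆ U, T.Nonempty ∧ ∀ k, ∑ i ∈ T, g i k = 0 := by
  classical
  have : NeZero m := ⟨by omega⟩
  by_contra hcon
  push Not at hcon
  have h := zeroSum_card (G := κ → ZMod m) m (by omega)
    (by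
      intro x
      funext k
      simp) U g
    (by
      intro T hT hTn h0
      obtain ⟨k, hk⟩ := hcon T hT hTn
      apply hk
      have := congrFun h0 k
      simpa using this)
  rw [Fintype.card_fun, ZMod.card] at h
  -- (m/(m-1))^(m^2) ≥ m
  obtain ⟨a, rfl⟩ : ∃ a, m = a + 1 := ⟨m - 1, by omega⟩
  have ha : 1 ≤ a := by omega
  rw [Nat.add_sub_cancel] at h
  have hb : 2 * a ^ (a + 1) ≤ (a + 1) ^ (a + 1) := by
    have h1 : (a : ℤ) ^ (a + 1) + (a + 1 : ℕ) * (a : ℤ) ^ a * 1 ≤ ((a : ℤ) + 1) ^ (a + 1) := by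
      have := add_pow (a : ℤ) 1 (a + 1)
      rw [this, Finset.sum_range_succ, Finset.sum_range_succ]
      have h2 : 0 ≤ ∑ x ∈ range a, (a : ℤ) ^ x * 1 ^ (a + 1 - x) * ((a + 1).choose x : ℤ) :=
        Finset.sum_nonneg fun i _ => by positivity
      have h3 : ((a + 1).choose a : ℤ) = (a + 1 : ℕ) := by
        rw [Nat.choose_succ_self_right]
      rw [h3]
      simp only [one_pow, mul_one, Nat.choose_self, Nat.cast_one] at h2 ⊢
      nlinarith [h2]
    have h4 : 2 * (a : ℤ) ^ (a + 1) ≤ ((a : ℤ) + 1) ^ (a + 1) := by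
      refine le_trans ?_ h1
      have : (0 : ℤ) ≤ (a : ℤ) ^ a := by positivity
      push_cast
      rw [pow_succ]
      nlinarith
    exact_mod_cast h4
  have hc : ((a + 1) * a ^ ((a + 1) ^ 2)) ≤ (a + 1) ^ ((a + 1) ^ 2) := by
    have h5 : (2 * a ^ (a + 1)) ^ (a + 1) ≤ ((a + 1) ^ (a + 1)) ^ (a + 1) :=
      Nat.pow_le_pow_left hb _
    rw [mul_pow, ← pow_mul, ← pow_mul, ← sq] at h5
    refine le_trans (Nat.mul_le_mul_right _ ?_) h5
    exact (Nat.lt_two_pow_self).le
  have hd : ∀ h : ℕ, (a + 1) ^ h * a ^ ((a + 1) ^ 2 * h) ≤ (a + 1) ^ ((a + 1) ^ 2 * h) := by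
    intro h
    have h6 := Nat.pow_le_pow_left hc h
    rwa [mul_pow, ← pow_mul, ← pow_mul] at h6
  obtain ⟨e, he⟩ := Nat.exists_eq_add_of_le hU
  rw [he] at h
  have h7 := hd (Fintype.card κ)
  have h8 : (a + 1) ^ Fintype.card κ * a ^ ((a + 1) ^ 2 * Fintype.card κ + 1 + e) <
      (a + 1) ^ ((a + 1) ^ 2 * Fintype.card κ + 1 + e) := by
    calc (a + 1) ^ Fintype.card κ * a ^ ((a + 1) ^ 2 * Fintype.card κ + 1 + e)
        = ((a + 1) ^ Fintype.card κ * a ^ ((a + 1) ^ 2 * Fintype.card κ)) * a ^ (1 + e) := by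
          rw [add_assoc, pow_add]; ring
      _ ≤ (a + 1) ^ ((a + 1) ^ 2 * Fintype.card κ) * a ^ (1 + e) := Nat.mul_le_mul_right _ h7
      _ < (a + 1) ^ ((a + 1) ^ 2 * Fintype.card κ) * (a + 1) ^ (1 + e) := by
          apply Nat.mul_lt_mul_of_pos_left
          · exact Nat.pow_lt_pow_left (by omega) (by omega)
          · positivity
      _ = (a + 1) ^ ((a + 1) ^ 2 * Fintype.card κ + 1 + e) := by
          rw [add_assoc, pow_add]; ring
  omega

end Pool.Agent.Helper82.ACC
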