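import Pool.Agent.Helper82.ACC.Graph
import Pool.Agent.Helper82.ACC.ZeroSum

/-!
# Circuits with few special gates do not compute majority
-/

set_option autoImplicit false

namespace Pool.Agent.Helper82.ACC

open Finset

namespace Circuit

variable {n s : ℕ}

/-- The gate `g` depends only on its inputs. -/
def Local (K : Circuit n s) (g : Fin s) : Prop :=
  ∀ x x' v v', (∀ i ∈ K.vars g, x i = x' i) → (∀ h ∈ K.args g, v h = v' h) →
    K.op g x v = K.op g x' v'

theorem IsAndOr.isLocal {K : Circuit n s} {g : Fin s} (h : K.IsAndOr g) : K.Local g := by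
  obtain ⟨c, p, q, h⟩ := h
  intro x x' v v' hx hv
  have h1 : K.op g x v = c ↔ K.op g x' v' = c := by
    rw [h, h]
    constructor
    · rintro ⟨h1, h2⟩
      exact ⟨fun i hi => (hx i hi) ▸ h1 i hi, fun k hk => (hv k hk) ▸ h2 k hk⟩
    · rintro ⟨h1, h2⟩
      exact ⟨fun i hi => (hx i hi).symm ▸ h1 i hi, fun k hk => (hv k hk).symm ▸ h2 k hk⟩
  revert h1
  cases K.op g x v <;> cases K.op g x' v' <;> cases c <;> simp

theorem IsMod.isLocal {m : ℕ} {K : Circuit n s} {g : Fin s} (h : K.IsMod m g) : K.Local g := by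
  obtain ⟨a, b, A, h⟩ := h
  intro x x' v v' hx hv
  rw [Bool.eq_iff_iff, h, h]
  have h1 : (∑ i ∈ K.vars g, if x i = true then a i else 0) =
      ∑ i ∈ K.vars g, if x' i = true then a i else 0 :=
    sum_congr rfl fun i hi => by rw [hx i hi]
  have h2 : (∑ k ∈ K.args g, if v k = true then b k else 0) =
      ∑ k ∈ K.args g, if v' k = true then b k else 0 :=
    sum_congr rfl fun k hk => by rw [hv k hk]
  rw [h1, h2]

theorem Legal.isLocal {m r : ℕ} {K : Circuit n s} (h : K.Legal m r) (g : Fin s) : K.Local g := by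
  rcases h g with h | h | h
  · exact h.isLocal
  · exact h.isLocal
  · exact h.2

/-- The value of a gate when the gates in `H` are given the values `z`. -/
def ev (K : Circuit n s) (H : Finset (Fin s)) (z : Fin s → Bool) (x : Fin n → Bool) :
    ℕ → Fin s → Bool
  | 0, _ => false
  | l + 1, g => K.op g x fun h => if h ∈ H then z h else ev K H z x l h

theorem ev_congr {K : Circuit n s} (hK : ∀ g, K.Local g) {H : Finset (Fin s)} {z : Fin s → Bool}
    {x x' : Fin n → Bool} (l : ℕ) (g : Fin s) (h : ∀ i ∈ K.reach H l g, x i = x' i) :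
    K.ev H z x l g = K.ev H z x' l g := by
  induction l generalizing g with
  | zero => rfl
  | succ l ih =>
    simp only [ev]
    apply hK g
    · intro i hi
      exact h i (by simp only [reach]; exact mem_union_left _ hi)
    · intro k hk
      by_cases hkH : k ∈ H
      · rw [if_pos hkH, if_pos hkH]
      · rw [if_neg hkH, if_neg hkH]
        apply ih
        intro i hi
        apply h
        simp only [reach]
        exact mem_union_right _ (mem_biUnion.mpr ⟨k, mem_sdiff.mpr ⟨hk, hkH⟩, hi⟩)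

theorem ev_congr_z {K : Circuit n s} (hK : ∀ g, K.Local g) {H : Finset (Fin s)}
    {z z' : Fin s → Bool} {x : Fin n → Bool} (h : ∀ g ∈ H, z g = z' g) (l : ℕ) (g : Fin s) :
    K.ev H z x l g = K.ev H z' x l g := by
  induction l generalizing g with
  | zero => rfl
  | succ l ih =>
    simp only [ev]
    apply hK g _ _ _ _ (fun _ _ => rfl)
    intro k _
    by_cases hkH : k ∈ H
    · rw [if_pos hkH, if_pos hkH, h k hkH]
    · rw [if_neg hkH, if_neg hkH, ih]

theorem ev_stable {K : Circuit n s} (hK : ∀ g, K.Local g) {H : Finset (Fin s)} {z : Fin s → Bool}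
    {x : Fin n → Bool} (l : ℕ) (g : Fin s) (h : K.level g < l) :
    K.ev H z x l g = K.ev H z x (l + 1) g := by
  induction l generalizing g with
  | zero => omega
  | succ l ih =>
    rw [ev, ev]
    apply hK g _ _ _ _ (fun _ _ => rfl)
    intro k hk
    by_cases hkH : k ∈ H
    · rw [if_pos hkH, if_pos hkH]
    · rw [if_neg hkH, if_neg hkH]
      exact ih k (by have := K.level_lt g k hk; omega)

theorem ev_run {K : Circuit n s} (hK : ∀ g, K.Local g) {H : Finset (Fin s)} {v : Fin s → Bool}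
    {x : Fin n → Bool} (hv : ∀ g, v g = K.op g x v) (l : ℕ) (g : Fin s) (h : K.level g < l) :
    K.ev H v x l g = v g := by
  induction l generalizing g with
  | zero => omega
  | succ l ih =>
    rw [ev, hv g]
    apply hK g _ _ _ _ (fun _ _ => rfl)
    intro k hk
    by_cases hkH : k ∈ H
    · rw [if_pos hkH]
    · rw [if_neg hkH]
      exact ih k (by have := K.level_lt g k hk; omega)

theorem ev_consistent {K : Circuit n s} (hK : ∀ g, K.Local g) {H : Finset (Fin s)}
    {z : Fin s → Bool} {x : Fin n → Bool} {L : ℕ} (hL : ∀ g, K.level g < L)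
    (hz : ∀ h ∈ H, K.ev H z x (L + 1) h = z h) (g : Fin s) :
    K.ev H z x (L + 1) g = K.op g x (K.ev H z x (L + 1)) := by
  conv_lhs => rw [ev]
  apply hK g _ _ _ _ (fun _ _ => rfl)
  intro k _
  by_cases hkH : k ∈ H
  · rw [if_pos hkH, hz k hkH]
  · rw [if_neg hkH]
    exact ev_stable hK L k (hL k)

theorem run_unique {K : Circuit n s} (hK : ∀ g, K.Local g) {v w : Fin s → Bool}
    {x : Fin n → Bool} (hv : ∀ g, v g = K.op g x v) (hw : ∀ g, w g = K.op g x w) : v = w := by
  funext g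
  rw [← ev_run (H := ∅) hK hv (K.level g + 1) g (by omega),
    ← ev_run (H := ∅) hK hw (K.level g + 1) g (by omega)]
  exact ev_congr_z hK (by simp) _ _

end Circuit

/-- `F` depends on at most one element of `I`. -/
def Dep {V α : Type*} [DecidableEq V] (I : Finset V) (F : Finset V → α) : Prop :=
  ∃ R : Finset V, (R ∩ I).card ≤ 1 ∧ ∀ P ⊆ I, ∀ P' ⊆ I, P ∩ R = P' ∩ R → F P = F P'

section Dep

variable {V α : Type*} [DecidableEq V] {I : Finset V}

theorem Dep.const (a : α) : Dep I fun _ => a := ⟨∅, by simp, fun _ _ _ _ _ => rfl⟩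

theorem inter_symmDiff_singleton {P R : Finset V} {i : V} (h : i ∉ R) :
    (symmDiff P {i}) ∩ R = P ∩ R := by
  ext j
  simp only [mem_inter, mem_symmDiff, mem_singleton]
  by_cases hj : j = i
  · subst hj; tauto
  · tauto

theorem symmDiff_singleton_subset {P : Finset V} (hP : P ⊆ I) {i : V} (hi : i ∈ I) :
    symmDiff P {i} ⊆ I := by
  intro j hj
  simp only [mem_symmDiff, mem_singleton] at hj
  rcases hj with ⟨hj, -⟩ | ⟨rfl, -⟩
  · exact hP hj
  · exact hi

theorem sdiff_inter_eq {P T R : Finset V} {i : V} (hP : P ⊆ I) (hTP : T ⊆ P)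
    (hR : (R ∩ I).card ≤ 1) (hiT : i ∈ T) (hiR : i ∈ R) :
    (P \ T) ∩ R = (symmDiff P {i}) ∩ R := by
  ext j
  simp only [mem_inter, mem_symmDiff, mem_singleton, mem_sdiff]
  have hiI : i ∈ R ∩ I := mem_inter.mpr ⟨hiR, hP (hTP hiT)⟩
  constructor
  · rintro ⟨⟨hjP, hjT⟩, hjR⟩
    exact ⟨Or.inl ⟨hjP, fun h => hjT (h ▸ hiT)⟩, hjR⟩
  · rintro ⟨⟨hjP, hji⟩ | ⟨rfl, hjP⟩, hjR⟩
    · refine ⟨⟨hjP, fun _ => hji ?_⟩, hjR⟩
      exact card_le_one.mp hR _ (mem_inter.mpr ⟨hjR, hP hjP⟩) _ hiI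
    · exact absurd (hTP hiT) hjP

theorem sdiff_inter_eq' {P T R : Finset V} (h : ∀ i ∈ T, i ∉ R) : (P \ T) ∩ R = P ∩ R := by
  ext j
  simp only [mem_inter, mem_sdiff]
  constructor
  · rintro ⟨⟨h1, -⟩, h2⟩; exact ⟨h1, h2⟩
  · rintro ⟨h1, h2⟩; exact ⟨⟨h1, fun h3 => h j h3 h2⟩, h2⟩

theorem Dep.sdiff_eq {F : Finset V → α} (hF : Dep I F) {P T : Finset V} (hP : P ⊆ I)
    (hTP : T ⊆ P) (h : ∀ i ∈ T, F (symmDiff P {i}) = F P) : F (P \ T) = F P := by
  obtain ⟨R, hR, hF⟩ := hF
  by_cases hT : ∃ i ∈ T, i ∈ R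
  · obtain ⟨i, hiT, hiR⟩ := hT
    rw [← h i hiT]
    exact hF _ (sdiff_subset.trans hP) _ (symmDiff_singleton_subset hP (hP (hTP hiT)))
      (sdiff_inter_eq hP hTP hR hiT hiR)
  · push Not at hT
    exact hF _ (sdiff_subset.trans hP) _ hP (sdiff_inter_eq' hT)

theorem Dep.sum_formula {A : Type*} [AddCommGroup A] {F : Finset V → A} (hF : Dep I F)
    {P T : Finset V} (hP : P ⊆ I) (hTP : T ⊆ P) :
    F P - F (P \ T) = ∑ i ∈ T, (F P - F (symmDiff P {i})) := by
  obtain ⟨R, hR, hF⟩ := hF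
  have h0 : ∀ i ∈ T, i ∉ R → F P - F (symmDiff P {i}) = 0 := by
    intro i hi hiR
    rw [sub_eq_zero]
    exact hF _ hP _ (symmDiff_singleton_subset hP (hP (hTP hi)))
      (inter_symmDiff_singleton hiR).symm
  by_cases hT : ∃ i ∈ T, i ∈ R
  · obtain ⟨i, hiT, hiR⟩ := hT
    rw [sum_eq_single i]
    · congr 1
      exact hF _ (sdiff_subset.trans hP) _ (symmDiff_singleton_subset hP (hP (hTP hiT)))
        (sdiff_inter_eq hP hTP hR hiT hiR)
    · intro j hj hji
      apply h0 j hj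
      intro hjR
      exact hji (card_le_one.mp hR _ (mem_inter.mpr ⟨hjR, hP (hTP hj)⟩) _
        (mem_inter.mpr ⟨hiR, hP (hTP hiT)⟩))
    · exact fun h => absurd hiT h
  · push Not at hT
    rw [sum_eq_zero fun i hi => h0 i hi (hT i hi), sub_eq_zero]
    exact hF _ hP _ (sdiff_subset.trans hP) (sdiff_inter_eq' hT).symm

end Dep

end Pool.Agent.Helper82.ACC
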