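import Mathlib

/-!
# Circuits of AND, OR, NOT and MOD_m gates of unbounded fan-in
-/

set_option autoImplicit false

namespace Pool.Agent.Helper82.ACC

open Finset

/-- A circuit with `n` input variables and `s` gates. The gate `g` is fed by the variables in
`vars g` and by the gates in `args g`; its value is `op g x v` when the variables have the values
`x` and the gates have the values `v`. -/
structure Circuit (n s : ℕ) where
  /-- the variables feeding each gate -/
  vars : Fin s → Finset (Fin n)
  /-- the gates feeding each gate -/
  args : Fin s → Finset (Fin s)
  /-- the function computed by each gate -/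
  op : Fin s → (Fin n → Bool) → (Fin s → Bool) → Bool
  /-- levels witnessing that there is no cycle -/
  level : Fin s → ℕ
  level_lt : ∀ g, ∀ h ∈ args g, level h < level g
  /-- the output gate -/
  out : Fin s

namespace Circuit

variable {n s : ℕ}

/-- The gate `g` has an output value `c` that it takes exactly when all its inputs take prescribed
values: AND, OR, NAND, NOR gates (also with some inputs negated), and NOT gates. -/
def IsAndOr (K : Circuit n s) (g : Fin s) : Prop :=
  ∃ (c : Bool) (p : Fin n → Bool) (q : Fin s → Bool), ∀ x v,
    K.op g x v = c ↔ (∀ i ∈ K.vars g, x i = p i) ∧ ∀ h ∈ K.args g, v h = q h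

/-- The value of the gate `g` is an arbitrary function of a linear combination, with arbitrary
coefficients modulo `m`, of its inputs: MOD_m gates and, more generally, arbitrary functions of the
number of true inputs modulo `m`. -/
def IsMod (m : ℕ) (K : Circuit n s) (g : Fin s) : Prop :=
  ∃ (a : Fin n → ZMod m) (b : Fin s → ZMod m) (A : Set (ZMod m)), ∀ x v,
    K.op g x v = true ↔
      (∑ i ∈ K.vars g, if x i = true then a i else 0) +
        (∑ h ∈ K.args g, if v h = true then b h else 0) ∈ A

/-- The gate `g` has at most `r` inputs; its value is an arbitrary function of them. -/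
def IsSmall (r : ℕ) (K : Circuit n s) (g : Fin s) : Prop :=
  (K.vars g).card + (K.args g).card ≤ r ∧
    ∀ x x' v v', (∀ i ∈ K.vars g, x i = x' i) → (∀ h ∈ K.args g, v h = v' h) →
      K.op g x v = K.op g x' v'

/-- Every gate is of one of the three kinds. -/
def Legal (m r : ℕ) (K : Circuit n s) : Prop :=
  ∀ g, K.IsAndOr g ∨ K.IsMod m g ∨ K.IsSmall r g

/-- The circuit computes `f`: on every input the gates have consistent values for which the output
gate has the value `f x`. -/
def Computes (K : Circuit n s) (f : (Fin n → Bool) → Prop) : Prop :=
  ∀ x, ∃ v : Fin s → Bool, (∀ g, v g = K.op g x v) ∧ (v K.out = true ↔ f x)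

/-- The number of wires. -/
def wires (K : Circuit n s) : ℕ :=
  ∑ g, ((K.vars g).card + (K.args g).card)

end Circuit

end Pool.Agent.Helper82.ACC
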