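import Pool.Agent.Helper82.ACC.Defs

/-!
# Few special gates and a large set of variables with disjoint cones
-/

set_option autoImplicit false

namespace Pool.Agent.Helper82.ACC

open Finset

namespace Circuit

variable {n s : ℕ}

/-- The variables that reach the gate `g` by a path of length at most `l` whose interior gates are
not in `H`. -/
def reach (K : Circuit n s) (H : Finset (Fin s)) : ℕ → Fin s → Finset (Fin n)
  | 0, _ => ∅
  | l + 1, g => K.vars g ∪ (K.args g \ H).biUnion (reach K H l)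

/-- Every gate outside `H` is reached by at most one variable of `I`. -/
def Sep (K : Circuit n s) (H : Finset (Fin s)) (I : Finset (Fin n)) (l : ℕ) : Prop :=
  ∀ g, g ∉ H → (K.reach H l g ∩ I).card ≤ 1

theorem reach_anti (K : Circuit n s) {H H' : Finset (Fin s)} (h : H ⊆ H') (l : ℕ) (g : Fin s) :
    K.reach H' l g ⊆ K.reach H l g := by
  induction l generalizing g with
  | zero => simp [reach]
  | succ l ih =>
    intro i hi
    simp only [reach, mem_union, mem_biUnion, mem_sdiff] at hi ⊢
    rcases hi with hi | ⟨k, ⟨hk, hkH⟩, hi⟩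
    · exact Or.inl hi
    · exact Or.inr ⟨k, ⟨hk, fun hH => hkH (h hH)⟩, ih k hi⟩

theorem card_reach_succ (K : Circuit n s) {H : Finset (Fin s)} {I : Finset (Fin n)} {l : ℕ}
    (hS : K.Sep H I l) (g : Fin s) :
    (K.reach H (l + 1) g ∩ I).card ≤ (K.vars g).card + (K.args g).card := by
  classical
  simp only [reach]
  rw [union_inter_distrib_right]
  refine (card_union_le _ _).trans ?_
  refine Nat.add_le_add (card_le_card inter_subset_left) ?_
  rw [biUnion_inter]
  refine card_biUnion_le.trans ?_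
  calc ∑ k ∈ K.args g \ H, (K.reach H l k ∩ I).card
      ≤ ∑ k ∈ K.args g \ H, 1 := by
        refine sum_le_sum fun k hk => hS k (mem_sdiff.mp hk).2
    _ ≤ (K.args g).card := by
        rw [sum_const, smul_eq_mul, mul_one]
        exact card_le_card sdiff_subset

/-- A maximal independent set. -/
theorem exists_indep {V : Type*} [DecidableEq V] (A : Finset V) (N : V → Finset V) (Δ : ℕ)
    (hN : ∀ i ∈ A, (N i).card ≤ Δ) (hsymm : ∀ i j, j ∈ N i → i ∈ N j) :
    ∃ B ⊆ A, (∀ i ∈ B, ∀ j ∈ B, i ≠ j → j ∉ N i) ∧ A.card ≤ (Δ + 1) * B.card := by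
  classical
  let F : Finset (Finset V) := A.powerset.filter fun B => ∀ i ∈ B, ∀ j ∈ B, i ≠ j → j ∉ N i
  have hF : F.Nonempty := ⟨∅, by simp [F]⟩
  obtain ⟨B, hBF, hmax⟩ := F.exists_max_image (fun B => B.card) hF
  have hB := mem_filter.mp hBF
  have hBA : B ⊆ A := mem_powerset.mp hB.1
  refine ⟨B, hBA, hB.2, ?_⟩
  have hcov : A ⊆ B ∪ B.biUnion N := by
    intro j hj
    by_contra hcon
    simp only [mem_union, mem_biUnion, not_or, not_exists, not_and] at hcon
    obtain ⟨hjB, hjN⟩ := hcon
    have hins : insert j B ∈ F := by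
      refine mem_filter.mpr ⟨mem_powerset.mpr (insert_subset hj hBA), ?_⟩
      intro i hi k hk hik
      rw [mem_insert] at hi hk
      rcases hi with rfl | hi
      · rcases hk with rfl | hk
        · exact absurd rfl hik
        · exact fun h => hjN k hk (hsymm _ _ h)
      · rcases hk with rfl | hk
        · exact hjN i hi
        · exact hB.2 i hi k hk hik
    have h1 := hmax _ hins
    rw [card_insert_of_notMem hjB] at h1
    omega
  calc A.card ≤ (B ∪ B.biUnion N).card := card_le_card hcov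
    _ ≤ B.card + (B.biUnion N).card := card_union_le _ _
    _ ≤ B.card + ∑ i ∈ B, (N i).card := Nat.add_le_add_left card_biUnion_le _
    _ ≤ B.card + ∑ i ∈ B, Δ := Nat.add_le_add_left (sum_le_sum fun i hi => hN i (hBA hi)) _
    _ = (Δ + 1) * B.card := by rw [sum_const, smul_eq_mul]; ring

/-- The loss in one step. -/
def lossQ (C q D : ℕ) : ℕ := 2 * q * ((4 * C * q + 3) * D + 1)

/-- The thresholds used in one step. -/
def thr (C : ℕ) (f : ℕ → ℕ) (r q : ℕ) : ℕ → ℕ
  | 0 => r + 1
  | j + 1 => thr C f r q j + 1 + 2 * (C + 1) * f (lossQ C q (thr C f r q j))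

theorem thr_lt_succ (C : ℕ) (f : ℕ → ℕ) (r q j : ℕ) : thr C f r q j < thr C f r q (j + 1) := by
  simp only [thr]; omega

theorem thr_mono (C : ℕ) (f : ℕ → ℕ) (r q : ℕ) : StrictMono (thr C f r q) :=
  strictMono_nat_of_lt_succ (thr_lt_succ C f r q)

theorem lt_thr (C : ℕ) (f : ℕ → ℕ) (r q j : ℕ) : r < thr C f r q j := by
  have h := (thr_mono C f r q).monotone (Nat.zero_le j)
  have h0 : thr C f r q 0 = r + 1 := rfl
  omega

/-- The pigeonhole principle for the thresholds. -/
theorem exists_sparse_range {V : Type*} [Fintype V] (a : V → ℕ) (t : ℕ → ℕ) (ht : StrictMono t)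
    (J M X : ℕ) (hsum : ∑ g, a g ≤ M) (hJ : 4 * M < J * (X + 1)) :
    ∃ j < J, 4 * ∑ g ∈ univ.filter (fun g => t j < a g ∧ a g ≤ t (j + 1)), a g ≤ X := by
  classical
  by_contra hcon
  push Not at hcon
  have h1 : J * (X + 1) ≤
      ∑ j ∈ range J, 4 * ∑ g ∈ univ.filter (fun g => t j < a g ∧ a g ≤ t (j + 1)), a g := by
    calc J * (X + 1) = ∑ j ∈ range J, (X + 1) := by rw [sum_const, card_range, smul_eq_mul]
      _ ≤ _ := sum_le_sum fun j hj => hcon j (mem_range.mp hj)
  have h2 : ∑ j ∈ range J, ∑ g ∈ univ.filter (fun g => t j < a g ∧ a g ≤ t (j + 1)), a g ≤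
      ∑ g, a g := by
    simp only [sum_filter]
    rw [sum_comm]
    refine sum_le_sum fun g _ => ?_
    rw [← sum_filter, sum_const, smul_eq_mul]
    have hc : ((range J).filter fun j => t j < a g ∧ a g ≤ t (j + 1)).card ≤ 1 := by
      rw [card_le_one]
      intro i hi j hj
      have hi' := (mem_filter.mp hi).2
      have hj' := (mem_filter.mp hj).2
      by_contra hne
      rcases Nat.lt_or_gt_of_ne hne with hlt | hlt
      · have := ht.monotone (show i + 1 ≤ j by omega)
        omega
      · have := ht.monotone (show j + 1 ≤ i by omega)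
        omega
    calc _ ≤ 1 * a g := Nat.mul_le_mul_right _ hc
      _ = a g := one_mul _
  rw [← mul_sum] at h1
  have h3 := Nat.mul_le_mul_left 4 (h2.trans hsum)
  omega

theorem step (K : Circuit n s) (C r q l : ℕ) (f : ℕ → ℕ) (H : Finset (Fin s)) (I : Finset (Fin n))
    (hW : K.wires ≤ C * n) (hS : K.Sep H I l) (hI : n ≤ q * I.card)
    (hH : H.card * ∑ j ∈ range (4 * C * q + 4), 2 * f (lossQ C q (thr C f r q j)) ≤ n)
    (hr : ∀ g ∈ H, r < (K.vars g).card + (K.args g).card) :
    ∃ j < 4 * C * q + 4, ∃ (H' : Finset (Fin s)) (I' : Finset (Fin n)),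
      n ≤ lossQ C q (thr C f r q j) * I'.card ∧
      H'.card * f (lossQ C q (thr C f r q j)) ≤ n ∧ K.Sep H' I' (l + 1) ∧
      (∀ g ∈ H', r < (K.vars g).card + (K.args g).card) := by
  classical
  set a : Fin s → ℕ := fun g => (K.reach H (l + 1) g ∩ I).card with ha
  have haf : ∀ g, a g ≤ (K.vars g).card + (K.args g).card := K.card_reach_succ hS
  have hsum : ∑ g, a g ≤ C * n := (sum_le_sum fun g _ => haf g).trans hW
  have hsumI : ∑ g, a g ≤ C * q * I.card := hsum.trans (by
    rw [mul_assoc]; exact Nat.mul_le_mul_left C hI)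
  obtain ⟨j, hj, hjs⟩ := exists_sparse_range a (thr C f r q) (thr_mono C f r q)
    (4 * C * q + 4) (C * q * I.card) I.card hsumI (by nlinarith [Nat.zero_le (C * q)])
  set D := thr C f r q j with hD
  set D' := thr C f r q (j + 1) with hD'
  refine ⟨j, hj, ?_⟩
  -- the bad variables
  let Z1 : Finset (Fin s) := univ.filter fun g => D < a g ∧ a g ≤ D'
  let Z0 : Finset (Fin s) := univ.filter fun g => a g ≤ D
  let Bad1 : Finset (Fin n) := Z1.biUnion fun g => K.reach H (l + 1) g ∩ I
  let b : Fin n → ℕ := fun i => (Z0.filter fun g => i ∈ K.reach H (l + 1) g).card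
  let Bad2 : Finset (Fin n) := I.filter fun i => 4 * C * q + 4 ≤ b i
  have hBad1 : 4 * Bad1.card ≤ I.card := by
    have h1 : Bad1.card ≤ ∑ g ∈ Z1, a g := card_biUnion_le
    exact (Nat.mul_le_mul_left 4 h1).trans hjs
  have hbsum : ∑ i ∈ I, b i ≤ C * q * I.card := by
    have hb1 : ∀ i, b i = ∑ g ∈ Z0, if i ∈ K.reach H (l + 1) g then 1 else 0 := fun i =>
      card_filter _ _
    have ha1 : ∀ g, a g = ∑ i ∈ I, if i ∈ K.reach H (l + 1) g then 1 else 0 := by
      intro g
      rw [← card_filter]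
      refine congrArg Finset.card (Finset.ext fun i => ?_)
      simp only [mem_filter, mem_inter]
      tauto
    have hbz : ∑ i ∈ I, b i = ∑ g ∈ Z0, a g := by
      rw [sum_congr rfl fun i _ => hb1 i, sum_congr rfl fun g _ => ha1 g, sum_comm]
    rw [hbz]
    exact (sum_le_univ_sum_of_nonneg (fun _ => Nat.zero_le _)).trans hsumI
  have hBad2 : 4 * Bad2.card ≤ I.card := by
    have h1 : Bad2.card * (4 * C * q + 4) ≤ ∑ i ∈ I, b i := by
      calc Bad2.card * (4 * C * q + 4) = ∑ i ∈ Bad2, (4 * C * q + 4) := by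
            rw [sum_const, smul_eq_mul]
        _ ≤ ∑ i ∈ Bad2, b i := sum_le_sum fun i hi => (mem_filter.mp hi).2
        _ ≤ ∑ i ∈ I, b i := sum_le_sum_of_subset (filter_subset _ _)
    have h2 := h1.trans hbsum
    by_contra hcon
    push Not at hcon
    have h3 : (C * q + 1) * (I.card + 1) ≤ (C * q + 1) * (4 * Bad2.card) :=
      Nat.mul_le_mul_left _ hcon
    nlinarith
  let I2 : Finset (Fin n) := I \ (Bad1 ∪ Bad2)
  have hI2 : I.card ≤ 2 * I2.card := by
    have h1 : I.card ≤ I2.card + (Bad1 ∪ Bad2).card := by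
      have := card_le_card_sdiff_add_card (s := I) (t := Bad1 ∪ Bad2)
      omega
    have h2 := card_union_le Bad1 Bad2
    omega
  let N : Fin n → Finset (Fin n) := fun i =>
    (Z0.filter fun g => i ∈ K.reach H (l + 1) g ∩ I).biUnion fun g => K.reach H (l + 1) g ∩ I
  have hN : ∀ i ∈ I2, (N i).card ≤ (4 * C * q + 3) * D := by
    intro i hi
    have hi' := mem_sdiff.mp hi
    have hiI := hi'.1
    have hb : b i ≤ 4 * C * q + 3 := by
      have : i ∉ Bad2 := fun h => hi'.2 (mem_union_right _ h)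
      simp only [Bad2, mem_filter, not_and, not_le] at this
      have := this hiI
      omega
    calc (N i).card ≤ ∑ g ∈ Z0.filter (fun g => i ∈ K.reach H (l + 1) g ∩ I), a g :=
          card_biUnion_le
      _ ≤ ∑ g ∈ Z0.filter (fun g => i ∈ K.reach H (l + 1) g ∩ I), D := by
          refine sum_le_sum fun g hg => ?_
          exact (mem_filter.mp (mem_filter.mp hg).1).2
      _ = (Z0.filter (fun g => i ∈ K.reach H (l + 1) g ∩ I)).card * D := by
          rw [sum_const, smul_eq_mul]
      _ ≤ (4 * C * q + 3) * D := by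
          refine Nat.mul_le_mul_right _ (le_trans (card_le_card ?_) hb)
          intro g hg
          rw [mem_filter] at hg ⊢
          exact ⟨hg.1, (mem_inter.mp hg.2).1⟩
  have hNs : ∀ i k, k ∈ N i → i ∈ N k := by
    intro i k hk
    simp only [N, mem_biUnion, mem_filter] at hk ⊢
    obtain ⟨g, ⟨hg, hig⟩, hkg⟩ := hk
    exact ⟨g, ⟨hg, hkg⟩, hig⟩
  obtain ⟨B, hBI, hBi, hBc⟩ := exists_indep I2 N _ hN hNs
  let T : Finset (Fin s) := univ.filter fun g => D' < a g
  refine ⟨H ∪ T, B, ?_, ?_, ?_, ?_⟩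
  · calc n ≤ q * I.card := hI
      _ ≤ q * (2 * I2.card) := Nat.mul_le_mul_left _ hI2
      _ ≤ q * (2 * (((4 * C * q + 3) * D + 1) * B.card)) := by gcongr
      _ = lossQ C q D * B.card := by rw [lossQ]; ring
  · have h1 : H.card * (2 * f (lossQ C q D)) ≤ n := by
      refine le_trans (Nat.mul_le_mul_left _ ?_) hH
      exact single_le_sum (f := fun j => 2 * f (lossQ C q (thr C f r q j)))
        (fun _ _ => Nat.zero_le _) (mem_range.mpr hj)
    have h2 : T.card * D' ≤ C * n := by
      calc T.card * D' = ∑ g ∈ T, D' := by rw [sum_const, smul_eq_mul]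
        _ ≤ ∑ g ∈ T, a g := sum_le_sum fun g hg => (mem_filter.mp hg).2.le
        _ ≤ ∑ g, a g := sum_le_univ_sum_of_nonneg (fun _ => Nat.zero_le _)
        _ ≤ C * n := hsum
    have h3 : 2 * (C + 1) * f (lossQ C q D) ≤ D' := by
      rw [hD', thr, ← hD]; omega
    have h4 : (C + 1) * (T.card * (2 * f (lossQ C q D))) ≤ (C + 1) * n := by
      calc (C + 1) * (T.card * (2 * f (lossQ C q D)))
          = T.card * (2 * (C + 1) * f (lossQ C q D)) := by ring
        _ ≤ T.card * D' := Nat.mul_le_mul_left _ h3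
        _ ≤ C * n := h2
        _ ≤ (C + 1) * n := Nat.mul_le_mul_right _ (by omega)
    have h5 : T.card * (2 * f (lossQ C q D)) ≤ n := Nat.le_of_mul_le_mul_left h4 (by omega)
    have h6 := Nat.mul_le_mul_right (2 * f (lossQ C q D)) (card_union_le H T)
    nlinarith
  · intro g hg
    rw [mem_union, not_or] at hg
    obtain ⟨hgH, hgT⟩ := hg
    have hgT' : a g ≤ D' := by
      simp only [T, mem_filter, mem_univ, true_and, not_lt] at hgT
      exact hgT
    have hsub : K.reach (H ∪ T) (l + 1) g ∩ B ⊆ K.reach H (l + 1) g ∩ B :=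
      inter_subset_inter_right (K.reach_anti subset_union_left _ _)
    refine (card_le_card hsub).trans ?_
    rw [card_le_one]
    intro i hi k hk
    rw [mem_inter] at hi hk
    have hiI2 := mem_sdiff.mp (hBI hi.2)
    have hkI2 := mem_sdiff.mp (hBI hk.2)
    by_cases hgD : a g ≤ D
    · by_contra hne
      apply hBi i hi.2 k hk.2 hne
      simp only [N, mem_biUnion, mem_filter]
      refine ⟨g, ⟨mem_filter.mpr ⟨mem_univ _, hgD⟩, mem_inter.mpr ⟨hi.1, hiI2.1⟩⟩,
        mem_inter.mpr ⟨hk.1, hkI2.1⟩⟩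
    · exfalso
      apply hiI2.2
      refine mem_union_left _ ?_
      simp only [Bad1, mem_biUnion]
      exact ⟨g, mem_filter.mpr ⟨mem_univ _, by omega, hgT'⟩, mem_inter.mpr ⟨hi.1, hiI2.1⟩⟩
  · intro g hg
    rw [mem_union] at hg
    rcases hg with hg | hg
    · exact hr g hg
    · have h1 : D' < a g := (mem_filter.mp hg).2
      have h2 := lt_thr C f r q (j + 1)
      exact (h2.trans h1).trans_le (haf g)

/-- For all `l`, `C`, `r` and every function `f` there is a bound `B` such that a circuit with at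
most `C * n` wires has a set `H` of gates and a set `I` of variables with `n ≤ q * |I|`,
`|H| * f q ≤ n`, `q ≤ B`, for which every gate outside `H` is reached by at most one variable of `I`
by paths of length at most `l` avoiding `H`; all gates in `H` have fan-in larger than `r`. -/
theorem exists_sep (C r l : ℕ) : ∀ f : ℕ → ℕ, ∃ B : ℕ, ∀ (n s : ℕ) (K : Circuit n s),
    K.wires ≤ C * n → ∃ q ≤ B, ∃ (H : Finset (Fin s)) (I : Finset (Fin n)),
      n ≤ q * I.card ∧ H.card * f q ≤ n ∧ K.Sep H I l ∧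
      (∀ g ∈ H, r < (K.vars g).card + (K.args g).card) := by
  classical
  induction l with
  | zero =>
    intro f
    refine ⟨1, fun n s K _ => ⟨1, le_rfl, ∅, univ, ?_, ?_, ?_, ?_⟩⟩
    · simp
    · simp
    · intro g _
      simp [reach]
    · simp
  | succ l ih =>
    intro f
    obtain ⟨B, hB⟩ := ih fun q => ∑ j ∈ range (4 * C * q + 4), 2 * f (lossQ C q (thr C f r q j))
    refine ⟨∑ q ∈ range (B + 1), ∑ j ∈ range (4 * C * q + 4), lossQ C q (thr C f r q j), ?_⟩
    intro n s K hW
    obtain ⟨q, hq, H, I, hI, hH, hS, hr⟩ := hB n s K hW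
    obtain ⟨j, hj, H', I', h1, h2, h3, h4⟩ := step K C r q l f H I hW hS hI hH hr
    refine ⟨_, ?_, H', I', h1, h2, h3, h4⟩
    calc lossQ C q (thr C f r q j)
        ≤ ∑ j ∈ range (4 * C * q + 4), lossQ C q (thr C f r q j) :=
          single_le_sum (f := fun j => lossQ C q (thr C f r q j)) (fun _ _ => Nat.zero_le _)
            (mem_range.mpr hj)
      _ ≤ _ := single_le_sum
            (f := fun q => ∑ j ∈ range (4 * C * q + 4), lossQ C q (thr C f r q j))
            (fun _ _ => Nat.zero_le _) (mem_range.mpr (by omega))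

end Circuit

end Pool.Agent.Helper82.ACC
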