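import Pool.Agent.Helper82.ACC.Core

/-!
# Circuits with few special gates do not compute majority
-/

set_option autoImplicit false

namespace Pool.Agent.Helper82.ACC

open Finset

theorem Dep.transfer {V α : Type*} [DecidableEq V] {I : Finset V} {F : Finset V → α}
    (hF : Dep I F) {P P' : Finset V} (hP : P ⊆ I)
    (hP' : P' ⊆ I) {i : V} (hi : i ∈ I) (h1 : F P = F P') (h2 : F (symmDiff P {i}) ≠ F P) :
    (i ∈ P ↔ i ∈ P') ∧ F (symmDiff P' {i}) ≠ F P' := by
  obtain ⟨R, hR, hF⟩ := hF
  have hiR : i ∈ R := by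
    by_contra h
    exact h2 (hF _ (symmDiff_singleton_subset hP hi) _ hP (inter_symmDiff_singleton h))
  have key : ∀ j ∈ R, j ∈ I → j = i := fun j hj hjI =>
    card_le_one.mp hR _ (mem_inter.mpr ⟨hj, hjI⟩) _ (mem_inter.mpr ⟨hiR, hi⟩)
  have hiff : i ∈ P ↔ i ∈ P' := by
    by_contra hcon
    apply h2
    rw [h1]
    apply hF _ (symmDiff_singleton_subset hP hi) _ hP'
    ext j
    simp only [mem_inter, mem_symmDiff, mem_singleton]
    constructor
    · rintro ⟨⟨hj, hji⟩ | ⟨rfl, hj⟩, hjR⟩
      · exact absurd (key j hjR (hP hj)) hji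
      · exact ⟨by tauto, hjR⟩
    · rintro ⟨hj, hjR⟩
      have : j = i := key j hjR (hP' hj)
      subst this
      exact ⟨Or.inr ⟨rfl, by tauto⟩, hjR⟩
  refine ⟨hiff, ?_⟩
  have h3 : F (symmDiff P' {i}) = F (symmDiff P {i}) := by
    apply hF _ (symmDiff_singleton_subset hP' hi) _ (symmDiff_singleton_subset hP hi)
    ext j
    simp only [mem_inter, mem_symmDiff, mem_singleton]
    constructor
    · rintro ⟨⟨hj, hji⟩ | ⟨rfl, hj⟩, hjR⟩
      · exact absurd (key j hjR (hP' hj)) hji
      · exact ⟨Or.inr ⟨rfl, by tauto⟩, hjR⟩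
    · rintro ⟨⟨hj, hji⟩ | ⟨rfl, hj⟩, hjR⟩
      · exact absurd (key j hjR (hP hj)) hji
      · exact ⟨Or.inr ⟨rfl, by tauto⟩, hjR⟩
  rw [h3, ← h1]
  exact h2

/-- Some large set is in a class with few sensitive elements. -/
theorem exists_good {V κ : Type*} [DecidableEq V] [DecidableEq κ] (I : Finset V) (H : Finset κ)
    (cls : Finset V → Finset κ) (Sens : Finset V → Finset V)
    (hcls : ∀ P ⊆ I, cls P ⊆ H) (hSI : ∀ P ⊆ I, Sens P ⊆ I)
    (hS : ∀ P ⊆ I, ∀ P' ⊆ I, cls P = cls P' → Sens P = Sens P' ∧ P ∩ Sens P = P' ∩ Sens P)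
    (hcard : H.card + 2 ≤ I.card) :
    ∃ P ⊆ I, I.card ≤ 2 * P.card ∧ (Sens P).card ≤ H.card + 1 := by
  by_contra hcon
  push Not at hcon
  let A : Finset (Finset V) := I.powerset.filter fun P => I.card ≤ 2 * P.card
  have hA : 2 ^ I.card ≤ 2 * A.card := by
    have h1 : I.powerset ⊆ A ∪ A.image (fun P => I \ P) := by
      intro P hP
      have hPI := mem_powerset.mp hP
      by_cases h : I.card ≤ 2 * P.card
      · exact mem_union_left _ (mem_filter.mpr ⟨hP, h⟩)
      · refine mem_union_right _ (mem_image.mpr ⟨I \ P, mem_filter.mpr ⟨?_, ?_⟩, ?_⟩)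
        · exact mem_powerset.mpr sdiff_subset
        · have := card_sdiff_add_card_eq_card hPI
          omega
        · exact Finset.sdiff_sdiff_eq_self hPI
    calc 2 ^ I.card = I.powerset.card := (card_powerset I).symm
      _ ≤ (A ∪ A.image (fun P => I \ P)).card := card_le_card h1
      _ ≤ A.card + (A.image (fun P => I \ P)).card := card_union_le _ _
      _ ≤ A.card + A.card := Nat.add_le_add_left card_image_le _
      _ = 2 * A.card := by ring
  have hfib : ∀ y ∈ H.powerset, (A.filter fun P => cls P = y).card ≤ 2 ^ (I.card - (H.card + 2)) := by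
    intro y _
    rcases (A.filter fun P => cls P = y).eq_empty_or_nonempty with h0 | ⟨P0, hP0⟩
    · rw [h0]; simp
    obtain ⟨hP0A, hP0y⟩ := mem_filter.mp hP0
    obtain ⟨hP0I, hP0c⟩ := mem_filter.mp hP0A
    have hP0I := mem_powerset.mp hP0I
    have hsens := hcon P0 hP0I hP0c
    have hle : (I \ Sens P0).card ≤ I.card - (H.card + 2) := by
      have := card_sdiff_add_card_eq_card (hSI P0 hP0I)
      omega
    calc (A.filter fun P => cls P = y).card
        ≤ (I \ Sens P0).powerset.card := by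
          apply card_le_card_of_injOn (fun P => P \ Sens P0)
          · intro P hP
            obtain ⟨hPA, hPy⟩ := mem_filter.mp (mem_coe.mp hP)
            have hPI := mem_powerset.mp (mem_filter.mp hPA).1
            exact mem_coe.mpr (mem_powerset.mpr (sdiff_subset_sdiff hPI (Subset.refl _)))
          · intro P hP P' hP' heq
            obtain ⟨hPA, hPy⟩ := mem_filter.mp (mem_coe.mp hP)
            obtain ⟨hPA', hPy'⟩ := mem_filter.mp (mem_coe.mp hP')
            have hPI := mem_powerset.mp (mem_filter.mp hPA).1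
            have hPI' := mem_powerset.mp (mem_filter.mp hPA').1
            have e1 := (hS P0 hP0I P hPI (hP0y.trans hPy.symm)).2
            have e2 := (hS P0 hP0I P' hPI' (hP0y.trans hPy'.symm)).2
            rw [← sdiff_union_inter P (Sens P0), ← sdiff_union_inter P' (Sens P0), ← e1, ← e2]
            simp only at heq
            rw [heq]
      _ = 2 ^ (I \ Sens P0).card := card_powerset _
      _ ≤ 2 ^ (I.card - (H.card + 2)) := Nat.pow_le_pow_right (by norm_num) hle
  have hA2 : A.card ≤ 2 ^ H.card * 2 ^ (I.card - (H.card + 2)) := by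
    rw [card_eq_sum_card_fiberwise (f := cls) (t := H.powerset)
      (fun P hP => mem_coe.mpr (mem_powerset.mpr (hcls P
        (mem_powerset.mp (mem_filter.mp (mem_coe.mp hP)).1))))]
    calc ∑ y ∈ H.powerset, (A.filter fun P => cls P = y).card
        ≤ ∑ y ∈ H.powerset, 2 ^ (I.card - (H.card + 2)) := sum_le_sum hfib
      _ = 2 ^ H.card * 2 ^ (I.card - (H.card + 2)) := by
        rw [sum_const, smul_eq_mul, card_powerset]
  rw [← pow_add] at hA2
  have e : I.card = (H.card + (I.card - (H.card + 2))) + 2 := by omega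
  have h2 : 2 ^ I.card = 4 * 2 ^ (H.card + (I.card - (H.card + 2))) := by
    conv_lhs => rw [e, pow_add]
    ring
  have h3 : 0 < 2 ^ (H.card + (I.card - (H.card + 2))) := by positivity
  omega

namespace Circuit

variable {n s : ℕ}

/-- The input whose true variables are those of `P` and of `Z`. -/
def inp (Z P : Finset (Fin n)) : Fin n → Bool := fun i => decide (i ∈ P ∪ Z)

/-- The value that the gate `k` feeds to the gates. -/
def feed (K : Circuit n s) (H : Finset (Fin s)) (Z : Finset (Fin n)) (L : ℕ) (z : Fin s → Bool)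
    (P : Finset (Fin n)) (k : Fin s) : Bool :=
  if k ∈ H then z k else K.ev H z (inp Z P) L k

theorem dep_inp (I Z : Finset (Fin n)) (j : Fin n) : Dep I fun P => inp Z P j := by
  refine ⟨{j}, ?_, ?_⟩
  · exact (card_le_card inter_subset_left).trans (by simp)
  · intro P _ P' _ h
    have : j ∈ P ↔ j ∈ P' := by
      have := Finset.ext_iff.mp h j
      simpa using this
    simp [inp, this]

theorem dep_feed {K : Circuit n s} (hK : ∀ g, K.Local g) {H : Finset (Fin s)}
    {I Z : Finset (Fin n)} {L : ℕ} (hS : K.Sep H I L) (z : Fin s → Bool) (k : Fin s) :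
    Dep I fun P => K.feed H Z L z P k := by
  by_cases hk : k ∈ H
  · simp only [feed, if_pos hk]
    exact Dep.const _
  · simp only [feed, if_neg hk]
    refine ⟨K.reach H L k, hS k hk, ?_⟩
    intro P _ P' _ h
    apply ev_congr hK
    intro i hi
    have : i ∈ P ↔ i ∈ P' := by
      have := Finset.ext_iff.mp h i
      simpa [hi] using this
    simp [inp, this]

theorem feed_congr {K : Circuit n s} (hK : ∀ g, K.Local g) {H : Finset (Fin s)}
    {Z : Finset (Fin n)} {L : ℕ} {z z' : Fin s → Bool} (h : ∀ g ∈ H, z g = z' g)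
    (P : Finset (Fin n)) (k : Fin s) : K.feed H Z L z P k = K.feed H Z L z' P k := by
  by_cases hk : k ∈ H
  · simp only [feed, if_pos hk]; exact h k hk
  · simp only [feed, if_neg hk]; exact ev_congr_z hK h _ _

theorem feed_run {K : Circuit n s} (hK : ∀ g, K.Local g) {H : Finset (Fin s)}
    {Z : Finset (Fin n)} {L : ℕ} (hL : ∀ g, K.level g < L) {P : Finset (Fin n)}
    {v : Fin s → Bool} (hv : ∀ g, v g = K.op g (inp Z P) v) (k : Fin s) :
    K.feed H Z L v P k = v k := by
  by_cases hk : k ∈ H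
  · simp only [feed, if_pos hk]
  · simp only [feed, if_neg hk]
    exact ev_run hK hv L k (hL k)

/-- A maximal zero-sum set. -/
theorem exists_max_zeroSum {ι κ : Type*} [DecidableEq ι] [Fintype κ] (m : ℕ) (hm : 2 ≤ m)
    (U : Finset ι) (g : ι → κ → ZMod m) :
    ∃ T ⊆ U, (∀ k, ∑ i ∈ T, g i k = 0) ∧ (U \ T).card ≤ m ^ 2 * Fintype.card κ := by
  classical
  let F : Finset (Finset ι) := U.powerset.filter fun T => ∀ k, ∑ i ∈ T, g i k = 0
  have hF : F.Nonempty := ⟨∅, by simp [F]⟩
  obtain ⟨T, hT, hmax⟩ := F.exists_max_image (fun B => B.card) hF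
  obtain ⟨hTU, hT0⟩ := mem_filter.mp hT
  have hTU := mem_powerset.mp hTU
  refine ⟨T, hTU, hT0, ?_⟩
  by_contra hcon
  push Not at hcon
  obtain ⟨T', hT', hne, h0⟩ := exists_zeroSum m hm (U \ T) g (by omega)
  have hdisj : Disjoint T T' := by
    rw [disjoint_left]
    intro i hi hi'
    exact (mem_sdiff.mp (hT' hi')).2 hi
  have hmem : T ∪ T' ∈ F := by
    refine mem_filter.mpr ⟨mem_powerset.mpr (union_subset hTU (hT'.trans sdiff_subset)), ?_⟩
    intro k
    rw [sum_union hdisj, hT0 k, h0 k, add_zero]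
  have h1 := hmax _ hmem
  rw [card_union_of_disjoint hdisj] at h1
  have := hne.card_pos
  omega

/-- A circuit with few large gates, in which every other gate is reached by at most one variable
of a large set, does not compute majority. -/
theorem core {m r : ℕ} (hm : 2 ≤ m) {K : Circuit n s} (hK : K.Legal m r) {L : ℕ}
    (hL : ∀ g, K.level g < L) {H : Finset (Fin s)} {I : Finset (Fin n)} (hS : K.Sep H I L)
    (hH : ∀ g ∈ H, r < (K.vars g).card + (K.args g).card)
    (hI : 2 * (m ^ 2 + 2) * H.card + 6 ≤ I.card)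
    (hc : K.Computes fun x => n ≤ 2 * (univ.filter fun i => x i = true).card) : False := by
  classical
  have hloc : ∀ g, K.Local g := fun g => hK.isLocal g
  have hIn : I.card ≤ n := by simpa using card_le_univ I
  obtain ⟨Z, hZI, hZ1, hZ2⟩ : ∃ Z : Finset (Fin n), Z ⊆ Iᶜ ∧ n - I.card ≤ 2 * Z.card ∧
      2 * Z.card ≤ n - I.card + 1 := by
    obtain ⟨Z, hZ, hc⟩ := exists_subset_card_eq (s := Iᶜ) (n := (n - I.card + 1) / 2)
      (by rw [card_compl, Fintype.card_fin]; omega)
    exact ⟨Z, hZ, by omega, by omega⟩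
  choose run hrun hout using hc
  have hao : ∀ g, ∃ (c : Bool) (p : Fin n → Bool) (q : Fin s → Bool), K.IsAndOr g → ∀ x v,
      (K.op g x v = c ↔ (∀ i ∈ K.vars g, x i = p i) ∧ ∀ h ∈ K.args g, v h = q h) := by
    intro g
    by_cases h : K.IsAndOr g
    · obtain ⟨c, p, q, h⟩ := h
      exact ⟨c, p, q, fun _ => h⟩
    · exact ⟨true, fun _ => true, fun _ => true, fun h' => absurd h' h⟩
  choose c p q hcpq using hao
  have hmo : ∀ g, ∃ (a : Fin n → ZMod m) (b : Fin s → ZMod m) (A : Set (ZMod m)),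
      K.IsMod m g → ∀ x v, (K.op g x v = true ↔
        (∑ i ∈ K.vars g, if x i = true then a i else 0) +
          (∑ h ∈ K.args g, if v h = true then b h else 0) ∈ A) := by
    intro g
    by_cases h : K.IsMod m g
    · obtain ⟨a, b, A, h⟩ := h
      exact ⟨a, b, A, fun _ => h⟩
    · exact ⟨fun _ => 0, fun _ => 0, ∅, fun h' => absurd h' h⟩
  choose a b A hab using hmo
  obtain ⟨v, hv⟩ : ∃ v : Finset (Fin n) → Fin s → Bool, ∀ P, v P = run (inp Z P) :=
    ⟨fun P => run (inp Z P), fun _ => rfl⟩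
  have hvrun : ∀ P g, v P g = K.op g (inp Z P) (v P) := by
    intro P g; rw [hv]; exact hrun _ g
  have hvout : ∀ P, v P K.out = true ↔
      n ≤ 2 * (univ.filter fun i => inp Z P i = true).card := by
    intro P; rw [hv]; exact hout _
  obtain ⟨cls, hcls⟩ : ∃ cls : Finset (Fin n) → Finset (Fin s),
      ∀ P, cls P = H.filter fun g => v P g = true := ⟨_, fun _ => rfl⟩
  obtain ⟨Sens, hSens⟩ : ∃ Sens : Finset (Fin n) → Finset (Fin n), ∀ P, Sens P =
      I.filter fun i => ∃ g ∈ H, K.IsAndOr g ∧ v P g = c g ∧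
        ((∃ j ∈ K.vars g, inp Z (symmDiff P {i}) j ≠ inp Z P j) ∨
        ∃ k ∈ K.args g, K.feed H Z L (v P) (symmDiff P {i}) k ≠ K.feed H Z L (v P) P k) :=
    ⟨_, fun _ => rfl⟩
  have hclsv : ∀ P P', cls P = cls P' → ∀ g ∈ H, v P g = v P' g := by
    intro P P' h g hg
    rw [hcls, hcls] at h
    have := Finset.ext_iff.mp h g
    simp only [mem_filter, hg, true_and] at this
    exact Bool.eq_iff_iff.mpr this
  have key : ∀ P ⊆ I, ∀ P' ⊆ I, cls P = cls P' → ∀ i ∈ Sens P,
      i ∈ Sens P' ∧ (i ∈ P ↔ i ∈ P') := by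
    intro P hP P' hP' hcl i hi
    rw [hSens] at hi
    rw [hSens]
    obtain ⟨hiI, g, hgH, hg, hvg, h⟩ := mem_filter.mp hi
    have hvz := hclsv P P' hcl
    have hvg' : v P' g = c g := by rw [← hvz g hgH]; exact hvg
    have m1 := (hcpq g hg (inp Z P) (v P)).mp ((hvrun _ g).symm.trans hvg)
    have m2 := (hcpq g hg (inp Z P') (v P')).mp ((hvrun _ g).symm.trans hvg')
    rcases h with ⟨j, hj, hne⟩ | ⟨k, hk, hne⟩
    · have := (dep_inp I Z j).transfer hP hP' hiI ((m1.1 j hj).trans (m2.1 j hj).symm) hne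
      exact ⟨mem_filter.mpr ⟨hiI, g, hgH, hg, hvg', Or.inl ⟨j, hj, this.2⟩⟩, this.1⟩
    · have e1 : K.feed H Z L (v P) P k = K.feed H Z L (v P) P' k := by
        rw [feed_run hloc hL (hvrun P), feed_congr hloc hvz, feed_run hloc hL (hvrun P')]
        exact (m1.2 k hk).trans (m2.2 k hk).symm
      have := (dep_feed hloc hS (v P) k).transfer hP hP' hiI e1 hne
      refine ⟨mem_filter.mpr ⟨hiI, g, hgH, hg, hvg', Or.inr ⟨k, hk, ?_⟩⟩, this.1⟩
      rw [feed_congr hloc (fun g hg => (hvz g hg).symm),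
        feed_congr hloc (fun g hg => (hvz g hg).symm)]
      exact this.2
  obtain ⟨P, hPI, hPc, hPs⟩ := exists_good I H cls Sens
    (fun P _ => by rw [hcls]; exact filter_subset _ _)
    (fun P _ => by rw [hSens]; exact filter_subset _ _) (by
      intro P hP P' hP' hcl
      constructor
      · ext i
        exact ⟨fun h => (key P hP P' hP' hcl i h).1, fun h => (key P' hP' P hP hcl.symm i h).1⟩
      · ext i
        simp only [mem_inter]
        constructor
        · rintro ⟨h1, h2⟩
          exact ⟨(key P hP P' hP' hcl i h2).2.mp h1, h2⟩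
        · rintro ⟨h1, h2⟩
          exact ⟨(key P hP P' hP' hcl i h2).2.mpr h1, h2⟩) (by nlinarith)
  have hfeedP : K.feed H Z L (v P) P = v P := funext fun k => feed_run hloc hL (hvrun P) k
  have hwit : ∀ g, ∃ R : Finset (Fin n), (R ∩ I).card ≤ 1 ∧
      (K.IsAndOr g → v P g ≠ c g → ∀ P' ⊆ I, P' ∩ R = P ∩ R →
        (∃ j ∈ K.vars g, inp Z P' j ≠ p g j) ∨
          ∃ k ∈ K.args g, K.feed H Z L (v P) P' k ≠ q g k) := by
    intro g
    by_cases h : K.IsAndOr g ∧ v P g ≠ c g
    · obtain ⟨hg, hvg⟩ := h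
      have h1 : ¬ ((∀ i ∈ K.vars g, inp Z P i = p g i) ∧ ∀ h ∈ K.args g, v P h = q g h) := by
        rw [← hcpq g hg (inp Z P) (v P), ← hvrun P g]
        exact hvg
      by_cases h2 : ∀ i ∈ K.vars g, inp Z P i = p g i
      · have h3 : ¬ ∀ h ∈ K.args g, v P h = q g h := fun h3 => h1 ⟨h2, h3⟩
        push Not at h3
        obtain ⟨k, hk, hne⟩ := h3
        obtain ⟨R, hR, hF⟩ := dep_feed (Z := Z) hloc hS (v P) k
        refine ⟨R, hR, fun _ _ P' hP' hPR => Or.inr ⟨k, hk, ?_⟩⟩
        have := hF P' hP' P hPI hPR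
        simp only at this
        rw [this, hfeedP]
        exact hne
      · push Not at h2
        obtain ⟨j, hj, hne⟩ := h2
        obtain ⟨R, hR, hF⟩ := dep_inp I Z j
        refine ⟨R, hR, fun _ _ P' hP' hPR => Or.inl ⟨j, hj, ?_⟩⟩
        have := hF P' hP' P hPI hPR
        simp only at this
        rw [this]
        exact hne
    · exact ⟨∅, by simp, fun h1 h2 => absurd ⟨h1, h2⟩ h⟩
  choose R hR1 hR2 using hwit
  obtain ⟨R0, hR01, hR02⟩ := dep_feed (Z := Z) hloc hS (v P) K.out
  obtain ⟨Fz, hFz⟩ : ∃ Fz : Finset (Fin n),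
      Fz = Sens P ∪ ((H.biUnion fun g => R g ∩ I) ∪ (R0 ∩ I)) := ⟨_, rfl⟩
  have hFzc : Fz.card ≤ 2 * H.card + 2 := by
    have h1 : (H.biUnion fun g => R g ∩ I).card ≤ H.card := by
      refine card_biUnion_le.trans ?_
      calc ∑ g ∈ H, (R g ∩ I).card ≤ ∑ g ∈ H, 1 := sum_le_sum fun g _ => hR1 g
        _ = H.card := by simp
    have h2 := card_union_le (Sens P) ((H.biUnion fun g => R g ∩ I) ∪ (R0 ∩ I))
    have h3 := card_union_le (H.biUnion fun g => R g ∩ I) (R0 ∩ I)
    rw [hFz]
    omega
  obtain ⟨Sg, hSgdef⟩ : ∃ Sg : Fin s → Finset (Fin n) → ZMod m, ∀ g P', Sg g P' =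
      (∑ i ∈ K.vars g, if inp Z P' i = true then a g i else 0) +
        (∑ h ∈ K.args g, if K.feed H Z L (v P) P' h = true then b g h else 0) :=
    ⟨_, fun _ _ => rfl⟩
  obtain ⟨T, hTU, hT0, hTc⟩ := exists_max_zeroSum m hm (P \ Fz)
    (fun i (g : {g // g ∈ H}) => Sg g P - Sg g (symmDiff P {i}))
  have hTP : T ⊆ P := hTU.trans sdiff_subset
  have hTF : ∀ i ∈ T, i ∉ Fz := fun i hi => (mem_sdiff.mp (hTU hi)).2
  have hTI : T ⊆ I := hTP.trans hPI
  have hPT : P \ T ⊆ I := sdiff_subset.trans hPI
  have hSg : ∀ g ∈ H, Sg g (P \ T) = Sg g P := by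
    intro g hg
    have h1 : Sg g P - Sg g (P \ T) = ∑ i ∈ T, (Sg g P - Sg g (symmDiff P {i})) := by
      simp only [hSgdef, add_sub_add_comm, ← sum_sub_distrib]
      rw [sum_add_distrib, sum_comm (s := T), sum_comm (s := T)]
      congr 1
      · refine sum_congr rfl fun j _ => ?_
        exact Dep.sum_formula (F := fun P' => if inp Z P' j = true then a g j else 0)
          (by
            obtain ⟨R, hR, hF⟩ := dep_inp I Z j
            refine ⟨R, hR, fun P hP P' hP' h => ?_⟩
            have := hF P hP P' hP' h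
            simp only at this ⊢
            rw [this]) hPI hTP
      · refine sum_congr rfl fun k _ => ?_
        exact Dep.sum_formula
          (F := fun P' => if K.feed H Z L (v P) P' k = true then b g k else 0)
          (by
            obtain ⟨R, hR, hF⟩ := dep_feed (Z := Z) hloc hS (v P) k
            refine ⟨R, hR, fun P hP P' hP' h => ?_⟩
            have := hF P hP P' hP' h
            simp only at this ⊢
            rw [this]) hPI hTP
    have h2 := hT0 ⟨g, hg⟩
    simp only at h2
    rw [h2, sub_eq_zero] at h1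
    exact h1.symm
  have hfeedop : ∀ g, K.ev H (v P) (inp Z (P \ T)) (L + 1) g =
      K.op g (inp Z (P \ T)) (K.feed H Z L (v P) (P \ T)) := fun g => rfl
  have hz : ∀ g ∈ H, K.ev H (v P) (inp Z (P \ T)) (L + 1) g = v P g := by
    intro g hg
    rw [hfeedop]
    rcases hK g with h | h | h
    · by_cases hc' : v P g = c g
      · rw [hc', hcpq g h]
        have m1 := (hcpq g h _ _).mp ((hvrun P g).symm.trans hc')
        constructor
        · intro j hj
          rw [← m1.1 j hj]
          apply (dep_inp I Z j).sdiff_eq hPI hTP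
          intro i hi
          by_contra hne
          apply hTF i hi
          rw [hFz, mem_union, hSens, mem_filter]
          exact Or.inl ⟨hTI hi, g, hg, h, hc', Or.inl ⟨j, hj, hne⟩⟩
        · intro k hk
          have h9 : K.feed H Z L (v P) (P \ T) k = K.feed H Z L (v P) P k := by
            apply (dep_feed (Z := Z) hloc hS (v P) k).sdiff_eq hPI hTP
            intro i hi
            by_contra hne
            apply hTF i hi
            rw [hFz, mem_union, hSens, mem_filter]
            exact Or.inl ⟨hTI hi, g, hg, h, hc', Or.inr ⟨k, hk, hne⟩⟩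
          rw [h9, hfeedP, m1.2 k hk]
      · have hne : K.op g (inp Z (P \ T)) (K.feed H Z L (v P) (P \ T)) ≠ c g := by
          rw [Ne, hcpq g h]
          rintro ⟨h1, h2⟩
          have h3 : ∀ i ∈ T, i ∉ R g := by
            intro i hi hiR
            apply hTF i hi
            rw [hFz]
            refine mem_union_right _ (mem_union_left _ (mem_biUnion.mpr ⟨g, hg, ?_⟩))
            exact mem_inter.mpr ⟨hiR, hTI hi⟩
          rcases hR2 g h hc' (P \ T) hPT (sdiff_inter_eq' h3) with ⟨j, hj, hne⟩ | ⟨k, hk, hne⟩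
          · exact hne (h1 j hj)
          · exact hne (h2 k hk)
        revert hne hc'
        cases K.op g (inp Z (P \ T)) (K.feed H Z L (v P) (P \ T)) <;> cases v P g <;>
          cases c g <;> simp
    · rw [hvrun P g, Bool.eq_iff_iff, hab g h, hab g h]
      have h1 := hSg g hg
      rw [hSgdef, hSgdef] at h1
      rw [h1, hfeedP]
    · have h1 := hH g hg
      have h2 := h.1
      omega
  have hrun' := ev_consistent hloc hL hz
  have huniq : v (P \ T) = K.ev H (v P) (inp Z (P \ T)) (L + 1) :=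
    run_unique hloc (hvrun (P \ T)) hrun'
  have hout' : v (P \ T) K.out = v P K.out := by
    rw [huniq]
    by_cases ho : K.out ∈ H
    · exact hz _ ho
    · rw [← ev_stable hloc L K.out (hL _)]
      have h3 : ∀ i ∈ T, i ∉ R0 := by
        intro i hi hiR
        apply hTF i hi
        rw [hFz]
        exact mem_union_right _ (mem_union_right _ (mem_inter.mpr ⟨hiR, hTI hi⟩))
      have h1 := hR02 (P \ T) hPT P hPI (sdiff_inter_eq' h3)
      simp only [hfeedP] at h1
      rw [← h1]
      simp only [feed, if_neg ho]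
  have hcount : ∀ P' ⊆ I, (univ.filter fun i => inp Z P' i = true).card = P'.card + Z.card := by
    intro P' hP'
    have h1 : (univ.filter fun i => inp Z P' i = true) = P' ∪ Z := by
      ext i
      simp [inp]
    rw [h1, card_union_of_disjoint]
    rw [disjoint_left]
    intro i hi hi'
    exact (mem_compl.mp (hZI hi')) (hP' hi)
  have h1 : v P K.out = true := by
    rw [hvout, hcount P hPI]
    omega
  have h2 := (hvout (P \ T)).mp (hout'.trans h1)
  rw [hcount _ hPT] at h2
  have h3 : (P \ T).card ≤ Fz.card + ((P \ Fz) \ T).card := by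
    refine (card_le_card ?_).trans (card_union_le _ _)
    intro i hi
    obtain ⟨hiP, hiT⟩ := mem_sdiff.mp hi
    by_cases h : i ∈ Fz
    · exact mem_union_left _ h
    · exact mem_union_right _ (mem_sdiff.mpr ⟨mem_sdiff.mpr ⟨hiP, h⟩, hiT⟩)
  have h4 : Fintype.card {g // g ∈ H} = H.card := Fintype.card_coe H
  rw [h4] at hTc
  have h5 : 2 * (m ^ 2 + 2) * H.card = 2 * (m ^ 2 * H.card) + 4 * H.card := by ring
  omega

end Circuit

end Pool.Agent.Helper82.ACC
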